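import Pool.Agent.Lib.MP_7428c0_nt.Multi

/-!
# Existence and uniqueness of the family of functors

The blocks considered are those seen by a set `A` of Whittaker data (one datum: the generic blocks;
all data: all blocks of `SL_n`). Additive bijections `χ` between the morphisms of the Whittaker
objects `W M a` and of the objects `O M a` come from a family of functors satisfying the
conditions of the question, compatibly with the Whittaker vectors, if and only if they respect
composition and the morphisms between the induced objects match under them. The family is unique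
up to a unique isomorphism.
-/

set_option autoImplicit false

open CategoryTheory CategoryTheory.Limits TwistDescent TwistDescent.Multi

namespace Pool.Agent.Results.MP_7428c0_nt.Classification

universe u v u' v' w w'

theorem result {ι : Type w} [Preorder ι] {A : Type w'}
    {R : ι → Type u} [∀ M, Category.{v} (R M)] [∀ M, Preadditive (R M)]
    {X : ι → Type u'} [∀ M, Category.{v'} (X M)] [∀ M, Preadditive (X M)]
    [∀ M, HasFiniteBiproducts (X M)] [∀ M, IsIdempotentComplete (X M)]
    (ind : ∀ L M : ι, L ≤ M → (R L ⥤ R M)) [∀ L M h, (ind L M h).Additive]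
    (spec : ∀ L M : ι, L ≤ M → (X L ⥤ X M)) [∀ L M h, (spec L M h).Additive]
    (W : ∀ M, A → R M) (O : ∀ M, A → X M)
    (u : ∀ (L M : ι) (h : L ≤ M) (a : A), W M a ⟶ (ind L M h).obj (W L a))
    (v : ∀ (L M : ι) (h : L ≤ M) (a : A), O M a ⟶ (spec L M h).obj (O L a))
    (hW : Data ind spec W O u v) (hT : Transitive ind W u) (hT' : Transitive spec O v)
    (χ : ∀ (M : ι) (a b : A), (W M a ⟶ W M b) → (O M a ⟶ O M b))
    (hχ : AdditiveBijections χ) :
    (MapsComp χ ∧ Matching u v χ) ↔
    ∃ (F : ∀ M, R M ⥤ X M) (e : ∀ M a, (F M).obj (W M a) ≅ O M a), IsFamily u v χ F e ∧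
      ∀ (F' : ∀ M, R M ⥤ X M) (e' : ∀ M a, (F' M).obj (W M a) ≅ O M a),
        IsFamily u v χ F' e' → UniquelyIso e e' := by
  constructor
  · rintro ⟨hc, hM⟩
    obtain ⟨F, e, hF⟩ := exists_family hW hT hT' hχ hc hM
    exact ⟨F, e, hF, fun F' e' hF' => uniquelyIso_of_family hW hT hF hF'⟩
  · rintro ⟨F, e, hF, -⟩
    exact ⟨mapsComp_of_family hF, matching_of_family hW hF⟩

end Pool.Agent.Results.MP_7428c0_nt.Classification
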