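import Pool.Agent.Lib.MP_7428c0_nt.Coh

/-!
# Automatic coherence

The question asks for the existence of an isomorphism between `LLC ∘ ind` and `spec ∘ LLC` for
each parabolic subgroup. For a family satisfying the conditions there is exactly one choice of all
these isomorphisms that respects the vectors of the Whittaker objects, and this choice is
automatically compatible with induction in stages.
-/

set_option autoImplicit false

open CategoryTheory TwistDescent TwistDescent.Levi

namespace Pool.Agent.Results.MP_7428c0_nt.Coherence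

universe u v u' v' w

theorem result {ι : Type w} [Preorder ι]
    {R : ι → Type u} [∀ M, Category.{v} (R M)] [∀ M, Preadditive (R M)]
    {X : ι → Type u'} [∀ M, Category.{v'} (X M)]
    (ind : ∀ L M : ι, L ≤ M → (R L ⥤ R M)) (spec : ∀ L M : ι, L ≤ M → (X L ⥤ X M))
    (W : ∀ M, R M) (O : ∀ M, X M) (u : ∀ (L M : ι) (h : L ≤ M), W M ⟶ (ind L M h).obj (W L))
    (v : ∀ (L M : ι) (h : L ≤ M), O M ⟶ (spec L M h).obj (O L))
    (hW : WhittakerData ind spec W O u v) (α : TransData ind W u) (β : TransData spec O v)
    (F : ∀ M, R M ⥤ X M) (hF : Solves ind spec W O F) (e : ∀ M, (F M).obj (W M) ≅ O M) :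
    ∃ η : ∀ (L M : ι) (h : L ≤ M), ind L M h ⋙ F M ≅ F L ⋙ spec L M h,
      NormalSquares u v e η ∧ Coherent η α β ∧
      ∀ η' : ∀ (L M : ι) (h : L ≤ M), ind L M h ⋙ F M ≅ F L ⋙ spec L M h,
        NormalSquares u v e η' → η' = η := by
  have h1 := exists_square hW hF e
  choose η hη using h1
  exact ⟨η, hη, coherent_of_normal hW hF e α β hη, fun η' h' => normal_unique hW hF e h' hη⟩

end Pool.Agent.Results.MP_7428c0_nt.Coherence
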