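import Pool.Agent.Lib.MP_7428c0_nt.G.Proof

/-!
# Descent of the correspondence from groups to the kernels of homomorphisms
-/

set_option autoImplicit false

open CategoryTheory TwistDescent TwistDescent.Smooth

namespace Pool.Agent.Results.MP_7428c0_nt.GroupDescent

universe v u

theorem result {ι : Type} [LE ι] {Γ : CG} (S : LeviSystem ι Γ) {X : ι → Type u}
    [∀ M, Category.{v} (X M)] [∀ M, Preadditive (X M)] [∀ M, Linear ℂ (X M)]
    [∀ M, HasShift (X M) (Tw Γ)] [∀ (M : ι) (a : Tw Γ), (shiftFunctor (X M) a).Additive]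
    [∀ (M : ι) (a : Tw Γ), (shiftFunctor (X M) a).Linear ℂ]
    (spec : ∀ L M : ι, L ≤ M → (X L ⥤ X M)) [∀ L M h, (spec L M h).CommShift (Tw Γ)]
    (O : ∀ M, Equivariant (X M) (Tw Γ))
    (u : ∀ (L M : ι) (h : L ≤ M), S.W M ⟶ (S.ind L M h).obj (S.W L))
    (v : ∀ (L M : ι) (h : L ≤ M), (O M).obj ⟶ (spec L M h).obj (O L).obj)
    (hW : WhitData S.ind spec S.W (fun M => (O M).obj) u v)
    (hu : ∀ L M h, IsEqVec (S.d L) (S.d M) (Cls.un (u L M h)))
    (hv : ∀ L M h, IsEq (A := Tw Γ) (spec L M h) (O M) (O L) (v L M h))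
    (F : ∀ M, S.R M ⥤ X M) [∀ M, (F M).Additive] [∀ M, (F M).Linear ℂ]
    (hF : Family S.ind spec S.W (fun M => (O M).obj) F)
    (e : ∀ M, (F M).obj (S.W M) ≅ (O M).obj)
    (hχ : ∀ (M : ι) (a : Tw Γ) (z z' : S.W M ⟶ S.W M),
      Smooth.IsTwist (S.d M) a (Cls.un z) (Cls.un z') →
      transp (F M) (e M) z' = twistBy (O M) a (transp (F M) (e M) z)) :
    ∃ F' : ∀ M, S.RK M ⥤ Equivariant (X M) (Tw Γ),
      Family S.indK (fun L M h => mapEq (spec L M h)) S.WK O F' ∧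
      (∀ M, Nonempty (F' M ⋙ Equivariant.forget (X M) (Tw Γ) ≅ S.indG M ⋙ F M)) ∧
      ∀ (M : ι) (g : (S.G M).T),
        AgreeUpTo (fun a : Tw Γ => a.char ((S.d M).f g)) (S.conjK M g ⋙ F' M) (F' M) :=
  descent S spec O u v hW hu hv F hF e hχ

end Pool.Agent.Results.MP_7428c0_nt.GroupDescent
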