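import Pool.Agent.Lib.MP_7428c0_nt.Twist

/-!
# Descent of the categorical correspondence along twists by characters

A family of functors satisfying the conditions of the question for a group `H` and its standard
Levi subgroups descends to the categories of objects equivariant under the twists by the characters
of `H / N`, that is to the group `N`, if and only if the isomorphisms `End (W M) = End (O M)` which
it induces are compatible with the twists.
-/

set_option autoImplicit false

open CategoryTheory TwistDescent TwistDescent.Levi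

namespace Pool.Agent.Results.MP_7428c0_nt.TwistDescent

universe u v u' v' w

theorem result {k A ι : Type w} [CommRing k] [AddGroup A] [LE ι]
    {R : ι → Type u} [∀ M, Category.{v} (R M)] [∀ M, Preadditive (R M)] [∀ M, Linear k (R M)]
    [∀ M, HasShift (R M) A] [∀ (M : ι) (a : A), (shiftFunctor (R M) a).Additive]
    [∀ (M : ι) (a : A), (shiftFunctor (R M) a).Linear k]
    {X : ι → Type u'} [∀ M, Category.{v'} (X M)] [∀ M, Preadditive (X M)] [∀ M, Linear k (X M)]
    [∀ M, HasShift (X M) A] [∀ (M : ι) (a : A), (shiftFunctor (X M) a).Additive]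
    [∀ (M : ι) (a : A), (shiftFunctor (X M) a).Linear k]
    (ind : ∀ L M : ι, L ≤ M → (R L ⥤ R M)) [∀ L M h, (ind L M h).CommShift A]
    (spec : ∀ L M : ι, L ≤ M → (X L ⥤ X M)) [∀ L M h, (spec L M h).CommShift A]
    (W : ∀ M, Equivariant (R M) A) (O : ∀ M, Equivariant (X M) A)
    (u : ∀ (L M : ι) (h : L ≤ M), (W M).obj ⟶ (ind L M h).obj (W L).obj)
    (v : ∀ (L M : ι) (h : L ≤ M), (O M).obj ⟶ (spec L M h).obj (O L).obj)
    (hW : WhittakerData ind spec (fun M => (W M).obj) (fun M => (O M).obj) u v)
    (hu : ∀ L M h, IsEquivariant (ind L M h) (W M) (W L) (u L M h))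
    (hv : ∀ L M h, IsEquivariant (spec L M h) (O M) (O L) (v L M h))
    (F : ∀ M, R M ⥤ X M) [∀ M, (F M).Additive] [∀ M, (F M).Linear k]
    (hF : Solves ind spec (fun M => (W M).obj) (fun M => (O M).obj) F)
    (e : ∀ M, (F M).obj (W M).obj ≅ (O M).obj) :
    (∀ (M : ι) (a : A) (z : (W M).obj ⟶ (W M).obj),
      transport (F M) (e M) (conjTwist (W M) a z) =
        conjTwist (O M) a (transport (F M) (e M) z)) ↔
    ∃ c : ∀ M, (F M).CommShift A,
      (∀ (M : ι) (c' : (F M).CommShift A),
        (∀ a, Normalised (F M) (W M) (O M) (e M) a (c'.commShiftIso a)) ↔ c' = c M) ∧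
      Solves (fun L M h => mapEq (A := A) (ind L M h)) (fun L M h => mapEq (spec L M h)) W O
        (fun M => mapEq (F M)) ∧
      ∀ (M : ι) (ω : Multiplicative A →* kˣ),
        Nonempty (charTwist ω ⋙ mapEq (F M) ≅ mapEq (F M) ⋙ charTwist ω) := by
  constructor
  · intro h
    obtain ⟨c, h1, h2⟩ := (descend_iff hW hu hv F hF e).1 h
    exact ⟨c, h1, h2, fun M ω => charTwist_mapEq (F M) ω⟩
  · rintro ⟨c, h1, h2, -⟩
    exact (descend_iff hW hu hv F hF e).2 ⟨c, h1, h2⟩

end Pool.Agent.Results.MP_7428c0_nt.TwistDescent
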